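import Mathlib

/-!
# Bound quiver algebras and minimal projective resolutions

Definitions for MP_eb0abf.
-/

namespace Q1.BoundQuiver

open CategoryTheory

universe u

/-- The data of a homomorphism from the path algebra `kV` of the quiver `V` onto the `k`-algebra
`Λ`: the images `e v` of the trivial paths and the images `ar f` of the arrows. Left modules are
used, so that the arrow `f : a ⟶ b` lies in `e b * Λ * e a`. -/
structure PathMap (k : Type) [Field k] (V : Type) [Fintype V] [Quiver.{0} V]
    (Λ : Type) [Ring Λ] [Algebra k Λ] where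
  /-- the idempotents -/
  e : V → Λ
  /-- the arrows -/
  ar : ∀ {a b : V}, (a ⟶ b) → Λ
  e_mul_self : ∀ a, e a * e a = e a
  e_mul_e : ∀ a b, a ≠ b → e a * e b = 0
  sum_e : ∑ a, e a = 1
  e_mul_ar : ∀ {a b : V} (f : a ⟶ b), e b * ar f = ar f
  ar_mul_e : ∀ {a b : V} (f : a ⟶ b), ar f * e a = ar f

namespace PathMap

variable {k : Type} [Field k] {V : Type} [Fintype V] [Quiver.{0} V]
  {Λ : Type} [Ring Λ] [Algebra k Λ] (D : PathMap k V Λ)

/-- The image of a path in `Λ`: the product of its arrows. -/
def path {a : V} : {b : V} → Quiver.Path a b → Λ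
  | _, Quiver.Path.nil => D.e a
  | _, Quiver.Path.cons p f => D.ar f * path p

/-- The homomorphism `kV → Λ` as a linear map; the path algebra has the paths as a basis. -/
noncomputable def eval : ((Σ a b : V, Quiver.Path a b) →₀ k) →ₗ[k] Λ :=
  Finsupp.linearCombination k (fun p => D.path p.2.2)

/-- `Λ` is the algebra `kV / I` for an admissible ideal `I`: the homomorphism `kV → Λ` is
surjective and its kernel `I` satisfies `R ^ m ⊆ I ⊆ R ^ 2` for some `m ≥ 2`. Here `R ^ m` is
spanned by the paths of length at least `m`. -/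
structure IsAdmissible : Prop where
  surjective : Function.Surjective D.eval
  pow_le : ∃ m : ℕ, 2 ≤ m ∧ ∀ (a b : V) (p : Quiver.Path a b), m ≤ p.length → D.path p = 0
  le_sq : ∀ f : (Σ a b : V, Quiver.Path a b) →₀ k, D.eval f = 0 →
    ∀ p : (Σ a b : V, Quiver.Path a b), p.2.2.length < 2 → f p = 0

end PathMap

/-- A finite strongly connected quiver. -/
structure IsFiniteStronglyConnected (V : Type) [Quiver.{0} V] : Prop where
  vertices : Finite V
  arrows : ∀ a b : V, Finite (a ⟶ b)
  connected : ∀ a b : V, Nonempty (Quiver.Path a b)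

section Modules

variable {Λ : Type} [Ring Λ]

/-- `π : P → M` is a projective cover of the finitely generated module `M`: `P` is a finitely
generated projective module, `π` is surjective and its kernel is superfluous. -/
structure IsProjectiveCover {P M : Type} [AddCommGroup P] [Module Λ P] [AddCommGroup M]
    [Module Λ M] (π : P →ₗ[Λ] M) : Prop where
  projective : Module.Projective Λ P
  finite : Module.Finite Λ P
  surjective : Function.Surjective π
  superfluous : ∀ N : Submodule Λ P, N ⊔ LinearMap.ker π = ⊤ → N = ⊤

/-- `IsSyzygy n M K` says that `K` is (isomorphic to) the `n`-th syzygy of `M` in a minimal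
projective resolution: `K ≅ M` if `n = 0`, and the `(n+1)`-st syzygies are the kernels of the
projective covers of the `n`-th ones. -/
inductive IsSyzygy (M : ModuleCat.{0} Λ) : ℕ → ModuleCat.{0} Λ → Prop
  | zero (K : ModuleCat.{0} Λ) : Nonempty (K ≃ₗ[Λ] M) → IsSyzygy M 0 K
  | succ (n : ℕ) (L P K : ModuleCat.{0} Λ) (π : P →ₗ[Λ] L) : IsSyzygy M n L →
      IsProjectiveCover π → Nonempty (K ≃ₗ[Λ] LinearMap.ker π) → IsSyzygy M (n + 1) K

/-- Projective covers are unique: the kernels are isomorphic. -/
theorem IsProjectiveCover.ker_equiv {P M P' M' : Type} [AddCommGroup P] [Module Λ P]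
    [AddCommGroup M] [Module Λ M] [AddCommGroup P'] [Module Λ P']
    [AddCommGroup M'] [Module Λ M'] {π : P →ₗ[Λ] M} {π' : P' →ₗ[Λ] M'}
    (h : IsProjectiveCover π) (h' : IsProjectiveCover π') (i : M ≃ₗ[Λ] M') :
    Nonempty (LinearMap.ker π ≃ₗ[Λ] LinearMap.ker π') := by
  have := h.projective
  have := h'.projective
  obtain ⟨g, hg⟩ := Module.projective_lifting_property π' (i.toLinearMap ∘ₗ π) h'.surjective
  have hg' : ∀ x, π' (g x) = i (π x) := fun x => by
    have := LinearMap.congr_fun hg x
    simpa using this
  have hsurj : Function.Surjective g := by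
    rw [← LinearMap.range_eq_top]
    apply h'.superfluous
    rw [eq_top_iff]
    intro y _
    obtain ⟨x, hx⟩ := h.surjective (i.symm (π' y))
    have hy : y - g x ∈ LinearMap.ker π' := by
      rw [LinearMap.mem_ker, map_sub, hg', hx]
      simp
    have : y = g x + (y - g x) := by abel
    rw [this]
    exact Submodule.add_mem_sup (LinearMap.mem_range_self g x) hy
  obtain ⟨s, hs⟩ := Module.projective_lifting_property g LinearMap.id hsurj
  have hs' : ∀ y, g (s y) = y := fun y => by simpa using LinearMap.congr_fun hs y
  have hssurj : Function.Surjective s := by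
    rw [← LinearMap.range_eq_top]
    apply h.superfluous
    rw [eq_top_iff]
    intro x _
    have hx : x - s (g x) ∈ LinearMap.ker π := by
      rw [LinearMap.mem_ker]
      apply i.injective
      rw [← hg', map_sub, hs', sub_self]
      simp
    have : x = s (g x) + (x - s (g x)) := by abel
    rw [this]
    exact Submodule.add_mem_sup (LinearMap.mem_range_self s _) hx
  have hinj : Function.Injective g := by
    intro x y hxy
    obtain ⟨u, rfl⟩ := hssurj x
    obtain ⟨v, rfl⟩ := hssurj y
    rw [hs', hs'] at hxy
    rw [hxy]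
  let G : P ≃ₗ[Λ] P' := LinearEquiv.ofBijective g ⟨hinj, hsurj⟩
  refine ⟨LinearEquiv.ofSubmodules G (LinearMap.ker π) (LinearMap.ker π') ?_⟩
  ext y
  simp only [Submodule.mem_map, LinearMap.mem_ker]
  constructor
  · rintro ⟨x, hx, rfl⟩
    have : π' (g x) = 0 := by rw [hg', hx, map_zero]
    exact this
  · intro hy
    obtain ⟨x, rfl⟩ := hsurj y
    refine ⟨x, ?_, rfl⟩
    rw [hg'] at hy
    exact (LinearEquiv.map_eq_zero_iff i).1 hy

end Modules

end Q1.BoundQuiver
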