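import Mathlib
import Pool.Agent.Q1.BoundQuiver.Defs

/-!
# A nine-dimensional algebra on a strongly connected quiver with three vertices
-/

namespace Q1.BoundQuiver

/-- The three vertices. -/
inductive V : Type
  | one | two | x
  deriving DecidableEq

instance : Fintype V := ⟨{V.one, V.two, V.x}, fun v => by cases v <;> decide⟩

/-- The four arrows `y : 1 → 1`, `α : 1 → 2`, `β : 2 → x`, `γ : x → 1`. -/
inductive Arr : V → V → Type
  | y : Arr .one .one
  | al : Arr .one .two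
  | be : Arr .two .x
  | ga : Arr .x .one
  deriving DecidableEq

instance : Quiver.{0} V := ⟨Arr⟩

/-- The algebra with basis `e₁, e₂, eₓ, y, α, β, γ, α y, α γ`. -/
@[ext] structure Lam (k : Type) where
  /-- coordinate of the trivial path at `1` -/
  e1 : k
  /-- coordinate of the trivial path at `2` -/
  e2 : k
  /-- coordinate of the trivial path at `x` -/
  ex : k
  /-- coordinate of `y` -/
  y : k
  /-- coordinate of `α` -/
  al : k
  /-- coordinate of `β` -/
  be : k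
  /-- coordinate of `γ` -/
  ga : k
  /-- coordinate of `α y` -/
  ay : k
  /-- coordinate of `α γ` -/
  ag : k

namespace Lam

variable {k : Type} [Field k]

instance : Zero (Lam k) := ⟨⟨0, 0, 0, 0, 0, 0, 0, 0, 0⟩⟩
instance : One (Lam k) := ⟨⟨1, 1, 1, 0, 0, 0, 0, 0, 0⟩⟩
instance : Add (Lam k) := ⟨fun p q => ⟨p.e1 + q.e1, p.e2 + q.e2, p.ex + q.ex, p.y + q.y,
  p.al + q.al, p.be + q.be, p.ga + q.ga, p.ay + q.ay, p.ag + q.ag⟩⟩
instance : Neg (Lam k) := ⟨fun p => ⟨-p.e1, -p.e2, -p.ex, -p.y, -p.al, -p.be, -p.ga, -p.ay, -p.ag⟩⟩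
instance : Sub (Lam k) := ⟨fun p q => ⟨p.e1 - q.e1, p.e2 - q.e2, p.ex - q.ex, p.y - q.y,
  p.al - q.al, p.be - q.be, p.ga - q.ga, p.ay - q.ay, p.ag - q.ag⟩⟩
instance : SMul k (Lam k) := ⟨fun c p => ⟨c * p.e1, c * p.e2, c * p.ex, c * p.y,
  c * p.al, c * p.be, c * p.ga, c * p.ay, c * p.ag⟩⟩
instance : Mul (Lam k) := ⟨fun p q => ⟨p.e1 * q.e1, p.e2 * q.e2, p.ex * q.ex,
  p.e1 * q.y + p.y * q.e1, p.e2 * q.al + p.al * q.e1, p.ex * q.be + p.be * q.e2,
  p.e1 * q.ga + p.ga * q.ex, p.e2 * q.ay + p.ay * q.e1 + p.al * q.y,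
  p.e2 * q.ag + p.ag * q.ex + p.al * q.ga⟩⟩

section simps
variable (p q : Lam k) (c : k)

@[simp] lemma zero_e1 : (0 : Lam k).e1 = 0 := rfl
@[simp] lemma zero_e2 : (0 : Lam k).e2 = 0 := rfl
@[simp] lemma zero_ex : (0 : Lam k).ex = 0 := rfl
@[simp] lemma zero_y : (0 : Lam k).y = 0 := rfl
@[simp] lemma zero_al : (0 : Lam k).al = 0 := rfl
@[simp] lemma zero_be : (0 : Lam k).be = 0 := rfl
@[simp] lemma zero_ga : (0 : Lam k).ga = 0 := rfl
@[simp] lemma zero_ay : (0 : Lam k).ay = 0 := rfl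
@[simp] lemma zero_ag : (0 : Lam k).ag = 0 := rfl
@[simp] lemma one_e1 : (1 : Lam k).e1 = 1 := rfl
@[simp] lemma one_e2 : (1 : Lam k).e2 = 1 := rfl
@[simp] lemma one_ex : (1 : Lam k).ex = 1 := rfl
@[simp] lemma one_y : (1 : Lam k).y = 0 := rfl
@[simp] lemma one_al : (1 : Lam k).al = 0 := rfl
@[simp] lemma one_be : (1 : Lam k).be = 0 := rfl
@[simp] lemma one_ga : (1 : Lam k).ga = 0 := rfl
@[simp] lemma one_ay : (1 : Lam k).ay = 0 := rfl
@[simp] lemma one_ag : (1 : Lam k).ag = 0 := rfl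
@[simp] lemma add_e1 : (p + q).e1 = p.e1 + q.e1 := rfl
@[simp] lemma add_e2 : (p + q).e2 = p.e2 + q.e2 := rfl
@[simp] lemma add_ex : (p + q).ex = p.ex + q.ex := rfl
@[simp] lemma add_y : (p + q).y = p.y + q.y := rfl
@[simp] lemma add_al : (p + q).al = p.al + q.al := rfl
@[simp] lemma add_be : (p + q).be = p.be + q.be := rfl
@[simp] lemma add_ga : (p + q).ga = p.ga + q.ga := rfl
@[simp] lemma add_ay : (p + q).ay = p.ay + q.ay := rfl
@[simp] lemma add_ag : (p + q).ag = p.ag + q.ag := rfl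
@[simp] lemma neg_e1 : (-p).e1 = -p.e1 := rfl
@[simp] lemma neg_e2 : (-p).e2 = -p.e2 := rfl
@[simp] lemma neg_ex : (-p).ex = -p.ex := rfl
@[simp] lemma neg_y : (-p).y = -p.y := rfl
@[simp] lemma neg_al : (-p).al = -p.al := rfl
@[simp] lemma neg_be : (-p).be = -p.be := rfl
@[simp] lemma neg_ga : (-p).ga = -p.ga := rfl
@[simp] lemma neg_ay : (-p).ay = -p.ay := rfl
@[simp] lemma neg_ag : (-p).ag = -p.ag := rfl
@[simp] lemma sub_e1 : (p - q).e1 = p.e1 - q.e1 := rfl
@[simp] lemma sub_e2 : (p - q).e2 = p.e2 - q.e2 := rfl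
@[simp] lemma sub_ex : (p - q).ex = p.ex - q.ex := rfl
@[simp] lemma sub_y : (p - q).y = p.y - q.y := rfl
@[simp] lemma sub_al : (p - q).al = p.al - q.al := rfl
@[simp] lemma sub_be : (p - q).be = p.be - q.be := rfl
@[simp] lemma sub_ga : (p - q).ga = p.ga - q.ga := rfl
@[simp] lemma sub_ay : (p - q).ay = p.ay - q.ay := rfl
@[simp] lemma sub_ag : (p - q).ag = p.ag - q.ag := rfl
@[simp] lemma smul_e1 : (c • p).e1 = c * p.e1 := rfl
@[simp] lemma smul_e2 : (c • p).e2 = c * p.e2 := rfl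
@[simp] lemma smul_ex : (c • p).ex = c * p.ex := rfl
@[simp] lemma smul_y : (c • p).y = c * p.y := rfl
@[simp] lemma smul_al : (c • p).al = c * p.al := rfl
@[simp] lemma smul_be : (c • p).be = c * p.be := rfl
@[simp] lemma smul_ga : (c • p).ga = c * p.ga := rfl
@[simp] lemma smul_ay : (c • p).ay = c * p.ay := rfl
@[simp] lemma smul_ag : (c • p).ag = c * p.ag := rfl
@[simp] lemma mul_e1 : (p * q).e1 = p.e1 * q.e1 := rfl
@[simp] lemma mul_e2 : (p * q).e2 = p.e2 * q.e2 := rfl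
@[simp] lemma mul_ex : (p * q).ex = p.ex * q.ex := rfl
@[simp] lemma mul_y : (p * q).y = p.e1 * q.y + p.y * q.e1 := rfl
@[simp] lemma mul_al : (p * q).al = p.e2 * q.al + p.al * q.e1 := rfl
@[simp] lemma mul_be : (p * q).be = p.ex * q.be + p.be * q.e2 := rfl
@[simp] lemma mul_ga : (p * q).ga = p.e1 * q.ga + p.ga * q.ex := rfl
@[simp] lemma mul_ay : (p * q).ay = p.e2 * q.ay + p.ay * q.e1 + p.al * q.y := rfl
@[simp] lemma mul_ag : (p * q).ag = p.e2 * q.ag + p.ag * q.ex + p.al * q.ga := rfl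
end simps

instance : AddCommGroup (Lam k) where
  add_assoc a b c := by ext <;> simp [add_assoc]
  zero_add a := by ext <;> simp
  add_zero a := by ext <;> simp
  add_comm a b := by ext <;> simp [add_comm]
  neg_add_cancel a := by ext <;> simp
  sub_eq_add_neg a b := by ext <;> simp [sub_eq_add_neg]
  nsmul := nsmulRec
  zsmul := zsmulRec

instance : Ring (Lam k) where
  left_distrib a b c := by ext <;> simp <;> ring
  right_distrib a b c := by ext <;> simp <;> ring
  zero_mul a := by ext <;> simp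
  mul_zero a := by ext <;> simp
  mul_assoc a b c := by ext <;> simp <;> ring
  one_mul a := by ext <;> simp
  mul_one a := by ext <;> simp
  neg_add_cancel a := by ext <;> simp
  zsmul := zsmulRec
  sub_eq_add_neg a b := by ext <;> simp [sub_eq_add_neg]

instance : Module k (Lam k) where
  one_smul a := by ext <;> simp
  mul_smul a b c := by ext <;> simp <;> ring
  smul_zero a := by ext <;> simp
  smul_add a b c := by ext <;> simp <;> ring
  add_smul a b c := by ext <;> simp <;> ring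
  zero_smul a := by ext <;> simp

instance : Algebra k (Lam k) := Algebra.ofModule
  (fun c p q => by ext <;> simp <;> ring) (fun c p q => by ext <;> simp <;> ring)

/-- The idempotents. -/
def idem (k : Type) [Field k] : V → Lam k
  | .one => ⟨1, 0, 0, 0, 0, 0, 0, 0, 0⟩
  | .two => ⟨0, 1, 0, 0, 0, 0, 0, 0, 0⟩
  | .x => ⟨0, 0, 1, 0, 0, 0, 0, 0, 0⟩

/-- The arrows. -/
def arrow (k : Type) [Field k] : ∀ {a b : V}, (a ⟶ b) → Lam k
  | _, _, Arr.y => ⟨0, 0, 0, 1, 0, 0, 0, 0, 0⟩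
  | _, _, Arr.al => ⟨0, 0, 0, 0, 1, 0, 0, 0, 0⟩
  | _, _, Arr.be => ⟨0, 0, 0, 0, 0, 1, 0, 0, 0⟩
  | _, _, Arr.ga => ⟨0, 0, 0, 0, 0, 0, 1, 0, 0⟩

/-- The presentation of `Lam k` by the quiver `V`. -/
def pres (k : Type) [Field k] : PathMap k V (Lam k) where
  e := idem k
  ar := arrow k
  e_mul_self a := by cases a <;> ext <;> simp [idem]
  e_mul_e a b h := by cases a <;> cases b <;> first | exact absurd rfl h | (ext <;> simp [idem])
  sum_e := by
    have : (Finset.univ : Finset V) = {V.one, V.two, V.x} := rfl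
    rw [this, Finset.sum_insert (by decide), Finset.sum_insert (by decide), Finset.sum_singleton]
    ext <;> simp [idem]
  e_mul_ar {a b} f := by
    change Arr a b at f
    cases f <;> ext <;> simp [idem, arrow]
  ar_mul_e {a b} f := by
    change Arr a b at f
    cases f <;> ext <;> simp [idem, arrow]

end Lam

end Q1.BoundQuiver
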