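import Mathlib
import Pool.Agent.Q1.BoundQuiver.Defs
import Pool.Agent.Q1.BoundQuiver.Lam

/-!
# Syzygies of the simple module at `x` over the algebra `Lam k`
-/

namespace Q1.BoundQuiver

open CategoryTheory

namespace Lam

variable {k : Type} [Field k]

/-! ### The algebra is a quotient of the path algebra by an admissible ideal -/

theorem stronglyConnected : IsFiniteStronglyConnected V where
  vertices := inferInstance
  arrows a b := by
    change Finite (Arr a b)
    cases a <;> cases b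
    · exact Finite.of_injective (fun _ : Arr .one .one => ()) (fun a b _ => by cases a; cases b; rfl)
    · exact Finite.of_injective (fun _ : Arr .one .two => ()) (fun a b _ => by cases a; cases b; rfl)
    · exact Finite.of_injective (fun _ : Arr .one .x => ()) (fun a b _ => by cases a)
    · exact Finite.of_injective (fun _ : Arr .two .one => ()) (fun a b _ => by cases a)
    · exact Finite.of_injective (fun _ : Arr .two .two => ()) (fun a b _ => by cases a)
    · exact Finite.of_injective (fun _ : Arr .two .x => ()) (fun a b _ => by cases a; cases b; rfl)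
    · exact Finite.of_injective (fun _ : Arr .x .one => ()) (fun a b _ => by cases a; cases b; rfl)
    · exact Finite.of_injective (fun _ : Arr .x .two => ()) (fun a b _ => by cases a)
    · exact Finite.of_injective (fun _ : Arr .x .x => ()) (fun a b _ => by cases a)
  connected := by
    have h12 : Quiver.Path V.one V.two := Quiver.Path.nil.cons Arr.al
    have h2x : Quiver.Path V.two V.x := Quiver.Path.nil.cons Arr.be
    have hx1 : Quiver.Path V.x V.one := Quiver.Path.nil.cons Arr.ga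
    intro a b
    cases a <;> cases b
    · exact ⟨Quiver.Path.nil⟩
    · exact ⟨h12⟩
    · exact ⟨h12.comp h2x⟩
    · exact ⟨h2x.comp hx1⟩
    · exact ⟨Quiver.Path.nil⟩
    · exact ⟨h2x⟩
    · exact ⟨hx1⟩
    · exact ⟨hx1.comp h12⟩
    · exact ⟨Quiver.Path.nil⟩

/-- The elements of the square of the radical. -/
def IsSq (u : Lam k) : Prop :=
  u.e1 = 0 ∧ u.e2 = 0 ∧ u.ex = 0 ∧ u.y = 0 ∧ u.al = 0 ∧ u.be = 0 ∧ u.ga = 0

/-- The elements of the radical. -/
def IsRad (u : Lam k) : Prop := u.e1 = 0 ∧ u.e2 = 0 ∧ u.ex = 0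

theorem arrow_rad {a b : V} (f : a ⟶ b) : IsRad (arrow k f) := by
  change Arr a b at f
  cases f <;> simp [arrow, IsRad]

theorem rad_mul_rad {u v : Lam k} (hu : IsRad u) (hv : IsRad v) : IsSq (u * v) := by
  obtain ⟨h1, h2, h3⟩ := hu
  obtain ⟨g1, g2, g3⟩ := hv
  simp [IsSq, h1, h2, h3, g1, g2, g3]

theorem rad_mul_sq {u v : Lam k} (hu : IsRad u) (hv : IsSq v) : u * v = 0 := by
  obtain ⟨h1, h2, h3⟩ := hu
  obtain ⟨g1, g2, g3, g4, g5, g6, g7⟩ := hv
  ext <;> simp [h1, h2, h3, g1, g2, g3, g4, g7]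

theorem IsSq.isRad {u : Lam k} (h : IsSq u) : IsRad u := ⟨h.1, h.2.1, h.2.2.1⟩

theorem path_nil (a : V) : (pres k).path (Quiver.Path.nil : Quiver.Path a a) = idem k a := rfl

theorem path_cons {a b c : V} (p : Quiver.Path a b) (f : b ⟶ c) :
    (pres k).path (p.cons f) = arrow k f * (pres k).path p := rfl

theorem path_rad : ∀ {a b : V} (p : Quiver.Path a b), 1 ≤ p.length → IsRad ((pres k).path p)
  | _, _, Quiver.Path.nil, h => by simp at h
  | _, _, Quiver.Path.cons p f, _ => by
    rw [path_cons]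
    obtain ⟨h1, h2, h3⟩ := arrow_rad (k := k) f
    simp [IsRad, h1, h2, h3]

theorem path_sq : ∀ {a b : V} (p : Quiver.Path a b), 2 ≤ p.length → IsSq ((pres k).path p)
  | _, _, Quiver.Path.nil, h => by simp at h
  | _, _, Quiver.Path.cons p f, h => by
    rw [path_cons]
    exact rad_mul_rad (arrow_rad f) (path_rad p (by simpa using h))

theorem path_three : ∀ {a b : V} (p : Quiver.Path a b), 3 ≤ p.length → (pres k).path p = 0
  | _, _, Quiver.Path.nil, h => by simp at h
  | _, _, Quiver.Path.cons p f, h => by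
    rw [path_cons]
    exact rad_mul_sq (arrow_rad f) (path_sq p (by simpa using h))

/-- The index type of the basis of the path algebra. -/
abbrev AllPaths := (Σ a b : V, Quiver.Path a b)

/-- The paths of length at most one. -/
def short : Fin 7 → AllPaths
  | 0 => ⟨.one, .one, .nil⟩
  | 1 => ⟨.two, .two, .nil⟩
  | 2 => ⟨.x, .x, .nil⟩
  | 3 => ⟨.one, .one, Quiver.Path.nil.cons Arr.y⟩
  | 4 => ⟨.one, .two, Quiver.Path.nil.cons Arr.al⟩
  | 5 => ⟨.two, .x, Quiver.Path.nil.cons Arr.be⟩
  | 6 => ⟨.x, .one, Quiver.Path.nil.cons Arr.ga⟩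

/-- The coordinates belonging to the paths of length at most one. -/
def coord (k : Type) [Field k] : Fin 7 → (Lam k →ₗ[k] k)
  | 0 => { toFun := Lam.e1, map_add' := fun _ _ => rfl, map_smul' := fun _ _ => rfl }
  | 1 => { toFun := Lam.e2, map_add' := fun _ _ => rfl, map_smul' := fun _ _ => rfl }
  | 2 => { toFun := Lam.ex, map_add' := fun _ _ => rfl, map_smul' := fun _ _ => rfl }
  | 3 => { toFun := Lam.y, map_add' := fun _ _ => rfl, map_smul' := fun _ _ => rfl }
  | 4 => { toFun := Lam.al, map_add' := fun _ _ => rfl, map_smul' := fun _ _ => rfl }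
  | 5 => { toFun := Lam.be, map_add' := fun _ _ => rfl, map_smul' := fun _ _ => rfl }
  | 6 => { toFun := Lam.ga, map_add' := fun _ _ => rfl, map_smul' := fun _ _ => rfl }

theorem short_or_long : ∀ {a b : V} (p : Quiver.Path a b),
    (∃ i, (⟨a, b, p⟩ : AllPaths) = short i) ∨ 2 ≤ p.length
  | a, _, Quiver.Path.nil => by
    left
    cases a
    · exact ⟨0, rfl⟩
    · exact ⟨1, rfl⟩
    · exact ⟨2, rfl⟩
  | a, b, Quiver.Path.cons (b := c) p f => by
    cases p with
    | nil =>
      left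
      change Arr _ _ at f
      cases f
      · exact ⟨3, rfl⟩
      · exact ⟨4, rfl⟩
      · exact ⟨5, rfl⟩
      · exact ⟨6, rfl⟩
    | cons q g =>
      right
      simp

theorem coord_short (i j : Fin 7) :
    coord k i ((pres k).path (short j).2.2) = if i = j then 1 else 0 := by
  fin_cases i <;> fin_cases j <;>
    simp [coord, short, path_cons, path_nil, arrow, idem]

theorem coord_long (i : Fin 7) {a b : V} (p : Quiver.Path a b) (h : 2 ≤ p.length) :
    coord k i ((pres k).path p) = 0 := by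
  obtain ⟨h1, h2, h3, h4, h5, h6, h7⟩ := path_sq (k := k) p h
  fin_cases i
  · exact h1
  · exact h2
  · exact h3
  · exact h4
  · exact h5
  · exact h6
  · exact h7

theorem coord_path (i : Fin 7) (q : AllPaths) (hq : q ≠ short i) :
    coord k i ((pres k).path q.2.2) = 0 := by
  obtain ⟨a, b, p⟩ := q
  rcases short_or_long p with ⟨j, hj⟩ | h
  · rw [hj] at hq ⊢
    rw [coord_short]
    rw [if_neg]
    rintro rfl
    exact hq rfl
  · exact coord_long i p h

theorem short_length (q : AllPaths) (h : q.2.2.length < 2) : ∃ i, q = short i := by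
  obtain ⟨a, b, p⟩ := q
  rcases short_or_long p with h' | h'
  · exact h'
  · exact absurd h (not_lt.2 h')

theorem coord_eval (i : Fin 7) (f : AllPaths →₀ k) :
    coord k i ((pres k).eval f) = f (short i) := by
  classical
  unfold PathMap.eval
  rw [Finsupp.linearCombination_apply, Finsupp.sum, map_sum]
  simp only [map_smul, smul_eq_mul]
  by_cases hi : short i ∈ f.support
  · rw [Finset.sum_eq_single_of_mem _ hi]
    · rw [coord_short]; simp
    · intro q _ hq
      rw [coord_path i q hq, mul_zero]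
  · rw [Finset.sum_eq_zero]
    · exact (Finsupp.notMem_support_iff.1 hi).symm
    · intro q hq
      rw [coord_path i q (by rintro rfl; exact hi hq), mul_zero]

theorem eval_single {a b : V} (p : Quiver.Path a b) (c : k) :
    (pres k).eval (Finsupp.single ⟨a, b, p⟩ c) = c • (pres k).path p := by
  unfold PathMap.eval
  rw [Finsupp.linearCombination_single]

theorem admissible : (pres k).IsAdmissible where
  surjective := by
    rw [← LinearMap.range_eq_top, eq_top_iff]
    intro u _
    have mem : ∀ {a b : V} (p : Quiver.Path a b) (c : k),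
        c • (pres k).path p ∈ LinearMap.range (pres k).eval := by
      intro a b p c
      rw [← eval_single]
      exact LinearMap.mem_range_self _ _
    have hu : u = u.e1 • (pres k).path (Quiver.Path.nil : Quiver.Path V.one V.one)
        + u.e2 • (pres k).path (Quiver.Path.nil : Quiver.Path V.two V.two)
        + u.ex • (pres k).path (Quiver.Path.nil : Quiver.Path V.x V.x)
        + u.y • (pres k).path (Quiver.Path.nil.cons Arr.y : Quiver.Path V.one V.one)
        + u.al • (pres k).path (Quiver.Path.nil.cons Arr.al : Quiver.Path V.one V.two)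
        + u.be • (pres k).path (Quiver.Path.nil.cons Arr.be : Quiver.Path V.two V.x)
        + u.ga • (pres k).path (Quiver.Path.nil.cons Arr.ga : Quiver.Path V.x V.one)
        + u.ay • (pres k).path ((Quiver.Path.nil.cons Arr.y).cons Arr.al :
            Quiver.Path V.one V.two)
        + u.ag • (pres k).path ((Quiver.Path.nil.cons Arr.ga).cons Arr.al :
            Quiver.Path V.x V.two) := by
      simp only [path_cons, path_nil]
      ext <;> simp [idem, arrow]
    rw [hu]
    refine Submodule.add_mem _ (Submodule.add_mem _ (Submodule.add_mem _ (Submodule.add_mem _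
      (Submodule.add_mem _ (Submodule.add_mem _ (Submodule.add_mem _ (Submodule.add_mem _
        ?_ ?_) ?_) ?_) ?_) ?_) ?_) ?_) ?_ <;> exact mem _ _
  pow_le := ⟨3, by norm_num, fun _ _ p h => path_three p h⟩
  le_sq f hf q hq := by
    obtain ⟨i, rfl⟩ := short_length q hq
    rw [← coord_eval, hf, map_zero]

/-! ### Modules -/

/-- The simple module at `x`. -/
@[ext] structure SX (k : Type) where
  /-- the coordinate -/
  val : k

instance : Zero (SX k) := ⟨⟨0⟩⟩
instance : Add (SX k) := ⟨fun s t => ⟨s.val + t.val⟩⟩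
instance : Neg (SX k) := ⟨fun s => ⟨-s.val⟩⟩
instance : Sub (SX k) := ⟨fun s t => ⟨s.val - t.val⟩⟩
instance : SMul (Lam k) (SX k) := ⟨fun p s => ⟨p.ex * s.val⟩⟩

@[simp] theorem SX_zero : (0 : SX k).val = 0 := rfl
@[simp] theorem SX_add (s t : SX k) : (s + t).val = s.val + t.val := rfl
@[simp] theorem SX_neg (s : SX k) : (-s).val = -s.val := rfl
@[simp] theorem SX_sub (s t : SX k) : (s - t).val = s.val - t.val := rfl
@[simp] theorem SX_smul (p : Lam k) (s : SX k) : (p • s).val = p.ex * s.val := rfl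

instance : AddCommGroup (SX k) where
  add_assoc a b c := by ext; simp [add_assoc]
  zero_add a := by ext; simp
  add_zero a := by ext; simp
  add_comm a b := by ext; simp [add_comm]
  neg_add_cancel a := by ext; simp
  sub_eq_add_neg a b := by ext; simp [sub_eq_add_neg]
  nsmul := nsmulRec
  zsmul := zsmulRec

instance : Module (Lam k) (SX k) where
  one_smul s := by ext; simp
  mul_smul p q s := by ext; simp [mul_assoc]
  smul_zero p := by ext; simp
  smul_add p s t := by ext; simp [mul_add]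
  add_smul p q s := by ext; simp [add_mul]
  zero_smul s := by ext; simp

instance : Nontrivial (SX k) := ⟨⟨⟨0⟩, ⟨1⟩, fun h => zero_ne_one (congrArg SX.val h)⟩⟩

theorem simple_SX : IsSimpleModule (Lam k) (SX k) := by
  rw [isSimpleModule_iff_toSpanSingleton_surjective]
  refine ⟨inferInstance, fun s hs t => ?_⟩
  have hs' : s.val ≠ 0 := fun h => hs (by ext; exact h)
  refine ⟨(⟨0, 0, t.val / s.val, 0, 0, 0, 0, 0, 0⟩ : Lam k), ?_⟩
  rw [LinearMap.toSpanSingleton_apply]
  ext
  exact div_mul_cancel₀ t.val hs'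

/-- The projective module at `1`. -/
def P1 (k : Type) [Field k] : Submodule (Lam k) (Lam k) where
  carrier := {u | u.e2 = 0 ∧ u.ex = 0 ∧ u.be = 0 ∧ u.ga = 0 ∧ u.ag = 0}
  zero_mem' := ⟨rfl, rfl, rfl, rfl, rfl⟩
  add_mem' := by
    rintro u v ⟨h1, h2, h3, h4, h5⟩ ⟨g1, g2, g3, g4, g5⟩
    exact ⟨by simp [h1, g1], by simp [h2, g2], by simp [h3, g3], by simp [h4, g4],
      by simp [h5, g5]⟩
  smul_mem' := by
    rintro c v ⟨g1, g2, g3, g4, g5⟩
    refine ⟨?_, ?_, ?_, ?_, ?_⟩ <;> simp [g1, g2, g3, g4, g5]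

/-- The projective module at `x`. -/
def PX (k : Type) [Field k] : Submodule (Lam k) (Lam k) where
  carrier := {u | u.e1 = 0 ∧ u.e2 = 0 ∧ u.y = 0 ∧ u.al = 0 ∧ u.be = 0 ∧ u.ay = 0}
  zero_mem' := ⟨rfl, rfl, rfl, rfl, rfl, rfl⟩
  add_mem' := by
    rintro u v ⟨h1, h2, h3, h4, h5, h6⟩ ⟨g1, g2, g3, g4, g5, g6⟩
    exact ⟨by simp [h1, g1], by simp [h2, g2], by simp [h3, g3], by simp [h4, g4],
      by simp [h5, g5], by simp [h6, g6]⟩
  smul_mem' := by
    rintro c v ⟨g1, g2, g3, g4, g5, g6⟩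
    refine ⟨?_, ?_, ?_, ?_, ?_, ?_⟩ <;> simp [g1, g2, g3, g4, g5, g6]

/-- The left ideal generated by `γ`. -/
def G (k : Type) [Field k] : Submodule (Lam k) (Lam k) where
  carrier := {u | u.e1 = 0 ∧ u.e2 = 0 ∧ u.ex = 0 ∧ u.y = 0 ∧ u.al = 0 ∧ u.be = 0 ∧ u.ay = 0}
  zero_mem' := ⟨rfl, rfl, rfl, rfl, rfl, rfl, rfl⟩
  add_mem' := by
    rintro u v ⟨h1, h2, h3, h4, h5, h6, h7⟩ ⟨g1, g2, g3, g4, g5, g6, g7⟩
    exact ⟨by simp [h1, g1], by simp [h2, g2], by simp [h3, g3], by simp [h4, g4],
      by simp [h5, g5], by simp [h6, g6], by simp [h7, g7]⟩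
  smul_mem' := by
    rintro c v ⟨g1, g2, g3, g4, g5, g6, g7⟩
    refine ⟨?_, ?_, ?_, ?_, ?_, ?_, ?_⟩ <;> simp [g1, g2, g3, g4, g5, g6, g7]

/-- The left ideal generated by `y`. -/
def Y (k : Type) [Field k] : Submodule (Lam k) (Lam k) where
  carrier := {u | u.e1 = 0 ∧ u.e2 = 0 ∧ u.ex = 0 ∧ u.al = 0 ∧ u.be = 0 ∧ u.ga = 0 ∧ u.ag = 0}
  zero_mem' := ⟨rfl, rfl, rfl, rfl, rfl, rfl, rfl⟩
  add_mem' := by
    rintro u v ⟨h1, h2, h3, h4, h5, h6, h7⟩ ⟨g1, g2, g3, g4, g5, g6, g7⟩
    exact ⟨by simp [h1, g1], by simp [h2, g2], by simp [h3, g3], by simp [h4, g4],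
      by simp [h5, g5], by simp [h6, g6], by simp [h7, g7]⟩
  smul_mem' := by
    rintro c v ⟨g1, g2, g3, g4, g5, g6, g7⟩
    refine ⟨?_, ?_, ?_, ?_, ?_, ?_, ?_⟩ <;> simp [g1, g2, g3, g4, g5, g6, g7]

/-- A left ideal `B` with `b * e = b` for all `b ∈ B` and `e ∈ B` is projective. -/
theorem projective_of_idem (B : Submodule (Lam k) (Lam k)) (e : Lam k) (he : ∀ u, u * e ∈ B)
    (hB : ∀ b ∈ B, b * e = b) : Module.Projective (Lam k) B := by
  let s : Lam k →ₗ[Lam k] B := LinearMap.codRestrict B (LinearMap.toSpanSingleton (Lam k) (Lam k) e)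
    (fun u => he u)
  refine Module.Projective.of_split B.subtype s ?_
  apply LinearMap.ext
  intro b
  apply Subtype.ext
  exact hB b.1 b.2

theorem finite_of_idem (B : Submodule (Lam k) (Lam k)) (e : Lam k) (he : e ∈ B)
    (hB : ∀ b ∈ B, b * e = b) : Module.Finite (Lam k) B := by
  have : B = Submodule.span (Lam k) {e} := by
    apply le_antisymm
    · intro b hb
      rw [Submodule.mem_span_singleton]
      exact ⟨b, hB b hb⟩
    · rw [Submodule.span_singleton_le_iff_mem]; exact he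
  rw [this]
  infer_instance

theorem superfluous_of {M : Type} [AddCommGroup M] [Module (Lam k) M]
    (B : Submodule (Lam k) (Lam k)) (e : B) (hB : ∀ b : B, b.1 • e = b) (π : B →ₗ[Lam k] M)
    (hker : ∀ κ ∈ LinearMap.ker π, (1 + κ.1 + κ.1 * κ.1) • (e - κ) = e)
    (N : Submodule (Lam k) B) (hN : N ⊔ LinearMap.ker π = ⊤) : N = ⊤ := by
  have he : e ∈ N := by
    have : e ∈ N ⊔ LinearMap.ker π := by rw [hN]; trivial
    obtain ⟨n, hn, κ, hκ, h⟩ := Submodule.mem_sup.1 this
    rw [← hker κ hκ]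
    have : e - κ = n := by rw [← h]; abel
    rw [this]
    exact N.smul_mem _ hn
  rw [eq_top_iff]
  intro b _
  rw [← hB b]
  exact N.smul_mem _ he

theorem P1_ext (u v : P1 k) (h1 : u.1.e1 = v.1.e1) (h2 : u.1.y = v.1.y) (h3 : u.1.al = v.1.al)
    (h4 : u.1.ay = v.1.ay) : u = v := by
  obtain ⟨u, a1, a2, a3, a4, a5⟩ := u
  obtain ⟨v, b1, b2, b3, b4, b5⟩ := v
  apply Subtype.ext
  ext
  · exact h1
  · exact a1.trans b1.symm
  · exact a2.trans b2.symm
  · exact h2
  · exact h3
  · exact a3.trans b3.symm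
  · exact a4.trans b4.symm
  · exact h4
  · exact a5.trans b5.symm

theorem PX_ext (u v : PX k) (h1 : u.1.ex = v.1.ex) (h2 : u.1.ga = v.1.ga) (h3 : u.1.ag = v.1.ag) :
    u = v := by
  obtain ⟨u, a1, a2, a3, a4, a5, a6⟩ := u
  obtain ⟨v, b1, b2, b3, b4, b5, b6⟩ := v
  apply Subtype.ext
  ext
  · exact a1.trans b1.symm
  · exact a2.trans b2.symm
  · exact h1
  · exact a3.trans b3.symm
  · exact a4.trans b4.symm
  · exact a5.trans b5.symm
  · exact h2
  · exact a6.trans b6.symm
  · exact h3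

theorem P1_projective : Module.Projective (Lam k) (P1 k) :=
  projective_of_idem _ (idem k .one)
    (fun u => ⟨by simp [idem], by simp [idem], by simp [idem], by simp [idem], by simp [idem]⟩)
    (by
      rintro b ⟨h1, h2, h3, h4, h5⟩
      ext <;> simp [idem, h1, h2, h3, h4, h5])

theorem P1_finite : Module.Finite (Lam k) (P1 k) :=
  finite_of_idem _ (idem k .one) ⟨rfl, rfl, rfl, rfl, rfl⟩
    (by
      rintro b ⟨h1, h2, h3, h4, h5⟩
      ext <;> simp [idem, h1, h2, h3, h4, h5])

theorem PX_projective : Module.Projective (Lam k) (PX k) :=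
  projective_of_idem _ (idem k .x)
    (fun u => ⟨by simp [idem], by simp [idem], by simp [idem], by simp [idem], by simp [idem],
      by simp [idem]⟩)
    (by
      rintro b ⟨h1, h2, h3, h4, h5, h6⟩
      ext <;> simp [idem, h1, h2, h3, h4, h5, h6])

theorem PX_finite : Module.Finite (Lam k) (PX k) :=
  finite_of_idem _ (idem k .x) ⟨rfl, rfl, rfl, rfl, rfl, rfl⟩
    (by
      rintro b ⟨h1, h2, h3, h4, h5, h6⟩
      ext <;> simp [idem, h1, h2, h3, h4, h5, h6])

/-- The cover of the simple module at `x`. -/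
def coverS (k : Type) [Field k] : PX k →ₗ[Lam k] SX k where
  toFun u := ⟨u.1.ex⟩
  map_add' _ _ := rfl
  map_smul' _ _ := rfl

/-- The cover of `Λ γ`. -/
def coverG (k : Type) [Field k] : P1 k →ₗ[Lam k] G k where
  toFun u := ⟨⟨0, 0, 0, 0, 0, 0, u.1.e1, 0, u.1.al⟩, rfl, rfl, rfl, rfl, rfl, rfl, rfl⟩
  map_add' u v := by apply Subtype.ext; ext <;> simp
  map_smul' c u := by
    obtain ⟨u, a1, a2, a3, a4, a5⟩ := u
    apply Subtype.ext; ext <;> simp

/-- The cover of `Λ y`. -/
def coverY (k : Type) [Field k] : P1 k →ₗ[Lam k] Y k where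
  toFun u := ⟨⟨0, 0, 0, u.1.e1, 0, 0, 0, u.1.al, 0⟩, rfl, rfl, rfl, rfl, rfl, rfl, rfl⟩
  map_add' u v := by apply Subtype.ext; ext <;> simp
  map_smul' c u := by
    obtain ⟨u, a1, a2, a3, a4, a5⟩ := u
    apply Subtype.ext; ext <;> simp

/-- The idempotent `e₁` as an element of `P1`. -/
def one1 (k : Type) [Field k] : P1 k := ⟨idem k .one, rfl, rfl, rfl, rfl, rfl⟩

/-- The idempotent `eₓ` as an element of `PX`. -/
def oneX (k : Type) [Field k] : PX k := ⟨idem k .x, rfl, rfl, rfl, rfl, rfl, rfl⟩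

theorem superfluous1 {M : Type} [AddCommGroup M] [Module (Lam k) M] (π : P1 k →ₗ[Lam k] M)
    (hker : ∀ κ ∈ LinearMap.ker π, κ.1.e1 = 0)
    (N : Submodule (Lam k) (P1 k)) (hN : N ⊔ LinearMap.ker π = ⊤) : N = ⊤ := by
  refine superfluous_of (P1 k) (one1 k) ?_ π ?_ N hN
  · rintro ⟨b, h1, h2, h3, h4, h5⟩
    apply P1_ext <;> simp [one1, idem]
  · intro κ hκ
    have h := hker κ hκ
    obtain ⟨κ, a1, a2, a3, a4, a5⟩ := κ
    simp only at h
    apply P1_ext <;> simp [one1, idem, h, a1]

theorem coverS_isCover : IsProjectiveCover (coverS k) where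
  projective := PX_projective
  finite := PX_finite
  surjective s := ⟨⟨⟨0, 0, s.val, 0, 0, 0, 0, 0, 0⟩, rfl, rfl, rfl, rfl, rfl, rfl⟩, rfl⟩
  superfluous N hN := by
    refine superfluous_of (PX k) (oneX k) ?_ (coverS k) ?_ N hN
    · rintro ⟨b, h1, h2, h3, h4, h5, h6⟩
      apply PX_ext <;> simp [oneX, idem]
    · rintro ⟨κ, a1, a2, a3, a4, a5, a6⟩ hκ
      have h : κ.ex = 0 := congrArg SX.val hκ
      apply PX_ext <;> simp [oneX, idem, h, a1, a2, a4]

theorem coverG_ker (κ : P1 k) : κ ∈ LinearMap.ker (coverG k) ↔ κ.1.e1 = 0 ∧ κ.1.al = 0 := by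
  rw [LinearMap.mem_ker]
  constructor
  · intro h
    have h' := congrArg Subtype.val h
    exact ⟨congrArg Lam.ga h', congrArg Lam.ag h'⟩
  · rintro ⟨h1, h2⟩
    apply Subtype.ext
    ext <;> simp [coverG, h1, h2]

theorem coverY_ker (κ : P1 k) : κ ∈ LinearMap.ker (coverY k) ↔ κ.1.e1 = 0 ∧ κ.1.al = 0 := by
  rw [LinearMap.mem_ker]
  constructor
  · intro h
    have h' := congrArg Subtype.val h
    exact ⟨congrArg Lam.y h', congrArg Lam.ay h'⟩
  · rintro ⟨h1, h2⟩
    apply Subtype.ext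
    ext <;> simp [coverY, h1, h2]

theorem coverG_isCover : IsProjectiveCover (coverG k) where
  projective := P1_projective
  finite := P1_finite
  surjective s := by
    obtain ⟨s, h1, h2, h3, h4, h5, h6, h7⟩ := s
    refine ⟨⟨⟨s.ga, 0, 0, 0, s.ag, 0, 0, 0, 0⟩, rfl, rfl, rfl, rfl, rfl⟩, ?_⟩
    apply Subtype.ext
    ext <;> simp [coverG, h1, h2, h3, h4, h5, h6, h7]
  superfluous N hN := superfluous1 _ (fun κ hκ => ((coverG_ker κ).1 hκ).1) N hN

theorem coverY_isCover : IsProjectiveCover (coverY k) where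
  projective := P1_projective
  finite := P1_finite
  surjective s := by
    obtain ⟨s, h1, h2, h3, h4, h5, h6, h7⟩ := s
    refine ⟨⟨⟨s.y, 0, 0, 0, s.ay, 0, 0, 0, 0⟩, rfl, rfl, rfl, rfl, rfl⟩, ?_⟩
    apply Subtype.ext
    ext <;> simp [coverY, h1, h2, h3, h4, h5, h6, h7]
  superfluous N hN := superfluous1 _ (fun κ hκ => ((coverY_ker κ).1 hκ).1) N hN

theorem kerS : Nonempty (LinearMap.ker (coverS k) ≃ₗ[Lam k] G k) := by
  have h : LinearMap.ker (coverS k) = Submodule.comap (PX k).subtype (G k) := by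
    ext ⟨u, a1, a2, a3, a4, a5, a6⟩
    constructor
    · intro h
      exact ⟨a1, a2, congrArg SX.val h, a3, a4, a5, a6⟩
    · rintro ⟨-, -, h, -⟩
      exact SX.ext h
  rw [h]
  exact ⟨Submodule.comapSubtypeEquivOfLe (by
    rintro u ⟨a1, a2, a3, a4, a5, a6, a7⟩
    exact ⟨a1, a2, a4, a5, a6, a7⟩)⟩

theorem ker1 {M : Type} [AddCommGroup M] [Module (Lam k) M] (π : P1 k →ₗ[Lam k] M)
    (hker : ∀ κ, κ ∈ LinearMap.ker π ↔ κ.1.e1 = 0 ∧ κ.1.al = 0) :
    Nonempty (LinearMap.ker π ≃ₗ[Lam k] Y k) := by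
  have h : LinearMap.ker π = Submodule.comap (P1 k).subtype (Y k) := by
    ext κ
    rw [hker]
    obtain ⟨κ, a1, a2, a3, a4, a5⟩ := κ
    constructor
    · rintro ⟨h1, h2⟩
      exact ⟨h1, a1, a2, h2, a3, a4, a5⟩
    · rintro ⟨h1, -, -, h2, -⟩
      exact ⟨h1, h2⟩
  rw [h]
  exact ⟨Submodule.comapSubtypeEquivOfLe (by
    rintro u ⟨a1, a2, a3, a4, a5, a6, a7⟩
    exact ⟨a2, a3, a5, a6, a7⟩)⟩

/-- The simple module at `x` as an object of the module category. -/
abbrev S (k : Type) [Field k] : ModuleCat.{0} (Lam k) := ModuleCat.of (Lam k) (SX k)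

theorem syzygy_zero {K : ModuleCat.{0} (Lam k)} (h : IsSyzygy (S k) 0 K) :
    Nonempty (K ≃ₗ[Lam k] SX k) := by
  cases h with
  | zero _ h => exact h

theorem syzygy_one {K : ModuleCat.{0} (Lam k)} (h : IsSyzygy (S k) 1 K) :
    Nonempty (K ≃ₗ[Lam k] G k) := by
  cases h with
  | succ _ L P _ π hL hπ hK =>
    obtain ⟨i⟩ := syzygy_zero hL
    obtain ⟨j⟩ := hπ.ker_equiv coverS_isCover i
    obtain ⟨l⟩ := kerS (k := k)
    obtain ⟨m⟩ := hK
    exact ⟨m.trans (j.trans l)⟩

theorem syzygy_add_two (n : ℕ) : ∀ {K : ModuleCat.{0} (Lam k)}, IsSyzygy (S k) (n + 2) K →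
    Nonempty (K ≃ₗ[Lam k] Y k) := by
  induction n with
  | zero =>
    intro K h
    cases h with
    | succ _ L P _ π hL hπ hK =>
      obtain ⟨i⟩ := syzygy_one hL
      obtain ⟨j⟩ := hπ.ker_equiv coverG_isCover i
      obtain ⟨l⟩ := ker1 (coverG k) coverG_ker
      obtain ⟨m⟩ := hK
      exact ⟨m.trans (j.trans l)⟩
  | succ n ih =>
    intro K h
    cases h with
    | succ _ L P _ π hL hπ hK =>
      obtain ⟨i⟩ := ih hL
      obtain ⟨j⟩ := hπ.ker_equiv coverY_isCover i
      obtain ⟨l⟩ := ker1 (coverY k) coverY_ker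
      obtain ⟨m⟩ := hK
      exact ⟨m.trans (j.trans l)⟩

theorem syzygy_exists (n : ℕ) : ∃ K : ModuleCat.{0} (Lam k), IsSyzygy (S k) n K := by
  have h0 : IsSyzygy (S k) 0 (S k) := IsSyzygy.zero _ ⟨LinearEquiv.refl _ _⟩
  have h1 : IsSyzygy (S k) 1 (ModuleCat.of (Lam k) (G k)) := by
    obtain ⟨l⟩ := kerS (k := k)
    exact IsSyzygy.succ 0 (S k) (ModuleCat.of (Lam k) (PX k)) _ (coverS k) h0 coverS_isCover
      ⟨l.symm⟩
  have h2 : ∀ m, IsSyzygy (S k) (m + 2) (ModuleCat.of (Lam k) (Y k)) := by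
    intro m
    induction m with
    | zero =>
      obtain ⟨l⟩ := ker1 (coverG k) coverG_ker
      exact IsSyzygy.succ 1 (ModuleCat.of (Lam k) (G k)) (ModuleCat.of (Lam k) (P1 k)) _
        (coverG k) h1 coverG_isCover ⟨l.symm⟩
    | succ m ih =>
      obtain ⟨l⟩ := ker1 (coverY k) coverY_ker
      exact IsSyzygy.succ (m + 2) (ModuleCat.of (Lam k) (Y k)) (ModuleCat.of (Lam k) (P1 k)) _
        (coverY k) ih coverY_isCover ⟨l.symm⟩
  rcases n with _ | _ | m
  · exact ⟨_, h0⟩
  · exact ⟨_, h1⟩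
  · exact ⟨_, h2 m⟩

theorem vanish_G (u : G k) : idem k .x • u = 0 := by
  obtain ⟨u, a1, a2, a3, a4, a5, a6, a7⟩ := u
  apply Subtype.ext
  ext <;> simp [idem, a3, a6]

theorem vanish_Y (u : Y k) : idem k .x • u = 0 := by
  obtain ⟨u, a1, a2, a3, a4, a5, a6, a7⟩ := u
  apply Subtype.ext
  ext <;> simp [idem, a3, a5]

/-- All positive syzygies of the simple module at `x` vanish at `x`. -/
theorem vanish (n : ℕ) (hn : 1 ≤ n) (K : ModuleCat.{0} (Lam k)) (h : IsSyzygy (S k) n K) (z : K) :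
    idem k .x • z = 0 := by
  rcases n with _ | _ | m
  · omega
  · obtain ⟨i⟩ := syzygy_one h
    apply i.injective
    rw [map_smul, vanish_G, map_zero]
  · obtain ⟨i⟩ := syzygy_add_two m h
    apply i.injective
    rw [map_smul, vanish_Y, map_zero]

/-! ### Projective dimension -/

theorem Y_nontrivial : Nontrivial (Y k) :=
  ⟨⟨⟨0, 0, 0, 1, 0, 0, 0, 0, 0⟩, rfl, rfl, rfl, rfl, rfl, rfl, rfl⟩, 0, fun h => by
    have h' := congrArg (fun u : Y k => u.1.y) h
    simp at h'⟩

theorem Y_not_projective : ¬ Module.Projective (Lam k) (Y k) := by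
  intro h
  have := h
  have := P1_projective (k := k)
  have hid : IsProjectiveCover (LinearMap.id : Y k →ₗ[Lam k] Y k) := by
    refine ⟨h, ?_, Function.surjective_id, ?_⟩
    · have := P1_finite (k := k)
      exact Module.Finite.of_surjective (coverY k) coverY_isCover.surjective
    · intro N hN
      simpa using hN
  obtain ⟨j⟩ := hid.ker_equiv coverY_isCover (LinearEquiv.refl _ _)
  obtain ⟨l⟩ := ker1 (coverY k) coverY_ker
  have := Y_nontrivial (k := k)
  obtain ⟨a, b, hab⟩ := exists_pair_ne (Y k)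
  apply hab
  apply (j.trans l).symm.injective
  have : Subsingleton (LinearMap.ker (LinearMap.id : Y k →ₗ[Lam k] Y k)) := by
    rw [LinearMap.ker_id]
    infer_instance
  exact Subsingleton.elim _ _

theorem Y_pd (n : ℕ) : ¬ HasProjectiveDimensionLT (ModuleCat.of (Lam k) (Y k)) n := by
  induction n with
  | zero =>
    intro h
    have hz := isZero_of_hasProjectiveDimensionLT_zero (ModuleCat.of (Lam k) (Y k))
    have := Y_nontrivial (k := k)
    have := ModuleCat.isZero_iff_subsingleton.1 hz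
    exact not_subsingleton (Y k) this
  | succ n ih =>
    rcases n with _ | n
    · intro h
      apply Y_not_projective (k := k)
      rw [IsProjective.iff_projective]
      exact projective_iff_hasProjectiveDimensionLT_one.2 h
    · intro h
      apply ih
      have hS := LinearMap.shortExact_shortComplexKer (coverY_isCover (k := k)).surjective
      have hP : Projective (ModuleCat.of (Lam k) (P1 k)) := by
        rw [← IsProjective.iff_projective]; exact P1_projective
      have := (hS.hasProjectiveDimensionLT_X₃_iff n hP).1 h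
      obtain ⟨l⟩ := ker1 (coverY k) coverY_ker
      have := this
      exact hasProjectiveDimensionLT_of_iso (LinearEquiv.toModuleIso l) (n + 1)

theorem G_pd (n : ℕ) : ¬ HasProjectiveDimensionLT (ModuleCat.of (Lam k) (G k)) (n + 2) := by
  intro h
  apply Y_pd (k := k) (n + 1)
  have hS := LinearMap.shortExact_shortComplexKer (coverG_isCover (k := k)).surjective
  have hP : Projective (ModuleCat.of (Lam k) (P1 k)) := by
    rw [← IsProjective.iff_projective]; exact P1_projective
  have := (hS.hasProjectiveDimensionLT_X₃_iff n hP).1 h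
  obtain ⟨l⟩ := ker1 (coverG k) coverG_ker
  have := this
  exact hasProjectiveDimensionLT_of_iso (LinearEquiv.toModuleIso l) (n + 1)

theorem S_pd (n : ℕ) : ¬ HasProjectiveDimensionLT (S k) (n + 3) := by
  intro h
  apply G_pd (k := k) n
  have hS := LinearMap.shortExact_shortComplexKer (coverS_isCover (k := k)).surjective
  have hP : Projective (ModuleCat.of (Lam k) (PX k)) := by
    rw [← IsProjective.iff_projective]; exact PX_projective
  have := (hS.hasProjectiveDimensionLT_X₃_iff (n + 1) hP).1 h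
  obtain ⟨l⟩ := kerS (k := k)
  have := this
  exact hasProjectiveDimensionLT_of_iso (LinearEquiv.toModuleIso l) (n + 2)

theorem pd_top : projectiveDimension (S k) = ⊤ := by
  by_contra h
  obtain ⟨n, hn⟩ := (projectiveDimension_ne_top_iff _).1 h
  apply S_pd (k := k) n
  exact hasProjectiveDimensionLT_of_ge _ (n + 1) (n + 3) (by omega)

end Lam

end Q1.BoundQuiver
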